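import Pool.Agent.Q285.PC.Split

/-!
Janiszewski's theorem for spaces all of whose maps to the circle lift, and separation by a
component.
-/

set_option autoImplicit false

open Set Filter Topology

namespace Pool.Agent.Q285.PC.Jan

open Pool.Agent.Q185.PC

/-- two lifts of a map on a connected set differ by a constant -/
lemma lift_const {Q : Type} [TopologicalSpace Q] {P : Set Q} (hP : IsPreconnected P) {θ w : Q → ℝ}
    (hθ : ContinuousOn θ P) (hw : ContinuousOn w P)
    (h : ∀ z ∈ P, Circle.exp (θ z) = Circle.exp (w z)) {x y : Q} (hx : x ∈ P) (hy : y ∈ P) :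
    θ x - w x = θ y - w y := by
  have key : ∀ x ∈ P, ∀ y ∈ P, ¬ (θ x - w x < θ y - w y) := by
    intro x hx y hy hlt
    obtain ⟨m, hm⟩ := Circle.exp_eq_exp.1 (h x hx)
    obtain ⟨n, hn⟩ := Circle.exp_eq_exp.1 (h y hy)
    have hpi := Real.pi_pos
    have hmn : m < n := by
      have h1 : (m : ℝ) * (2 * Real.pi) < n * (2 * Real.pi) := by
        have e1 : θ x - w x = m * (2 * Real.pi) := by rw [hm]; ring
        have e2 : θ y - w y = n * (2 * Real.pi) := by rw [hn]; ring
        rw [← e1, ← e2]; exact hlt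
      have h2 := lt_of_mul_lt_mul_right h1 (by positivity)
      exact_mod_cast h2
    have hmn' : (m : ℝ) + 1 ≤ n := by exact_mod_cast hmn
    have hI := hP.intermediate_value hx hy (hθ.sub hw)
    have hmem : (m : ℝ) * (2 * Real.pi) + Real.pi ∈ Icc (θ x - w x) (θ y - w y) := by
      constructor
      · rw [hm]; linarith
      · rw [hn]; nlinarith
    obtain ⟨z, hz, hzv⟩ := hI hmem
    obtain ⟨k, hk⟩ := Circle.exp_eq_exp.1 (h z hz)
    simp only [Pi.sub_apply] at hzv
    have h3 : (k : ℝ) * (2 * Real.pi) = m * (2 * Real.pi) + Real.pi := by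
      rw [← hzv, hk]; ring
    have h4 : (2 * (k : ℝ) - 2 * m - 1) * Real.pi = 0 := by linarith
    have h5 : (2 * (k : ℝ) - 2 * m - 1) = 0 := by
      rcases mul_eq_zero.1 h4 with h | h
      · exact h
      · exact absurd h hpi.ne'
    have h6 : 2 * k - 2 * m - 1 = 0 := by exact_mod_cast h5
    omega
  rcases lt_trichotomy (θ x - w x) (θ y - w y) with h1 | h1 | h1
  · exact absurd h1 (key x hx y hy)
  · exact h1
  · exact absurd h1 (key y hy x hx)

/-- Janiszewski's theorem -/
theorem janiszewski {Q : Type} [TopologicalSpace Q] [CompactSpace Q] [T2Space Q]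
    [LocallyConnectedSpace Q] (hL : Lifts Q) {A B : Set Q} (hA : IsClosed A)
    (hB : IsClosed B) (hAB : Disjoint A B) {x y : Q} (h1 : y ∈ connectedComponentIn Aᶜ x)
    (h2 : y ∈ connectedComponentIn Bᶜ x) : y ∈ connectedComponentIn (A ∪ B)ᶜ x := by
  classical
  by_contra hcon
  have hxA : x ∈ Aᶜ := connectedComponentIn_nonempty_iff.1 ⟨y, h1⟩
  have hxB : x ∈ Bᶜ := connectedComponentIn_nonempty_iff.1 ⟨y, h2⟩
  have hyA : y ∈ Aᶜ := connectedComponentIn_subset _ _ h1
  have hyB : y ∈ Bᶜ := connectedComponentIn_subset _ _ h2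
  have hopen : IsOpen (A ∪ B)ᶜ := (hA.union hB).isOpen_compl
  have hxAB : x ∈ (A ∪ B)ᶜ := by rintro (h | h); exacts [hxA h, hxB h]
  have hyAB : y ∈ (A ∪ B)ᶜ := by rintro (h | h); exacts [hyA h, hyB h]
  set U := connectedComponentIn (A ∪ B)ᶜ x with hU
  have hUo : IsOpen U := hopen.connectedComponentIn
  have hxU : x ∈ U := mem_connectedComponentIn hxAB
  set V := (A ∪ B)ᶜ \ U with hV
  have hVo : IsOpen V := by
    rw [isOpen_iff_mem_nhds]
    intro v hv
    have h3 : IsOpen (connectedComponentIn (A ∪ B)ᶜ v) := hopen.connectedComponentIn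
    filter_upwards [h3.mem_nhds (mem_connectedComponentIn hv.1)] with z hz
    refine ⟨connectedComponentIn_subset _ _ hz, fun hzU => hv.2 ?_⟩
    rw [hU, connectedComponentIn_eq hzU, ← connectedComponentIn_eq hz]
    exact mem_connectedComponentIn hv.1
  have hyV : y ∈ V := ⟨hyAB, hcon⟩
  have hxV : x ∉ V := fun h => h.2 hxU
  have hfr : frontier {z | z ∈ V} ⊆ A ∪ B := by
    intro z hz
    by_contra hzn
    have hzV : z ∉ V := by
      have : z ∈ frontier V := hz
      rw [hVo.frontier_eq] at this
      exact this.2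
    have hzU : z ∈ U := by
      by_contra h
      exact hzV ⟨hzn, h⟩
    have hzc : z ∈ closure V := frontier_subset_closure hz
    obtain ⟨w, hw1, hw2⟩ := mem_closure_iff.1 hzc U hUo hzU
    exact hw2.2 hw1
  obtain ⟨u, huA, huB, -⟩ := exists_continuous_zero_one_of_isClosed hA hB hAB
  have huA' : ∀ z ∈ A, u z = 0 := fun z hz => huA hz
  have huB' : ∀ z ∈ B, u z = 1 := fun z hz => huB hz
  have huc : Continuous fun z => Real.pi * u z := continuous_const.mul u.continuous
  have hgc : Continuous fun z => if z ∈ V then Circle.exp (-(Real.pi * u z)) else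
      Circle.exp (Real.pi * u z) := by
    refine Continuous.if ?_ (Circle.exp.continuous.comp huc.neg) (Circle.exp.continuous.comp huc)
    intro z hz
    rcases hfr hz with h | h
    · rw [huA' z h]; simp
    · rw [huB' z h, Circle.exp_eq_exp]
      exact ⟨-1, by push_cast; ring⟩
  obtain ⟨θ, hθ⟩ := hL ⟨_, hgc⟩
  simp only [ContinuousMap.coe_mk] at hθ
  -- first lift
  have hw1 : ContinuousOn (fun z => if z ∈ V then 2 * Real.pi - Real.pi * u z else Real.pi * u z)
      (connectedComponentIn Aᶜ x) := by
    refine ContinuousOn.if ?_ (continuous_const.sub huc).continuousOn huc.continuousOn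
    rintro z ⟨hz1, hz2⟩
    rcases hfr hz2 with h | h
    · exact absurd h (connectedComponentIn_subset _ _ hz1)
    · rw [huB' z h]; ring
  have hw2 : ContinuousOn (fun z => if z ∈ V then -(Real.pi * u z) else Real.pi * u z)
      (connectedComponentIn Bᶜ x) := by
    refine ContinuousOn.if ?_ huc.neg.continuousOn huc.continuousOn
    rintro z ⟨hz1, hz2⟩
    rcases hfr hz2 with h | h
    · rw [huA' z h]; ring
    · exact absurd h (connectedComponentIn_subset _ _ hz1)
  have e1 := lift_const isPreconnected_connectedComponentIn θ.continuous.continuousOn hw1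
    (fun z _ => by
      rw [← hθ z]
      by_cases hz : z ∈ V
      · simp only [hz, if_true]
        rw [Circle.exp_eq_exp]
        exact ⟨-1, by push_cast; ring⟩
      · simp only [hz, if_false]) (mem_connectedComponentIn hxA) h1
  have e2 := lift_const isPreconnected_connectedComponentIn θ.continuous.continuousOn hw2
    (fun z _ => by
      rw [← hθ z]
      by_cases hz : z ∈ V
      · simp only [hz, if_true]
      · simp only [hz, if_false]) (mem_connectedComponentIn hxB) h2
  simp only [hxV, hyV, if_true, if_false] at e1 e2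
  have := Real.pi_pos
  linarith

/-- joining two points of a connected open set by a closed connected subset -/
lemma exists_closed_conn {Q : Type} [TopologicalSpace Q] [RegularSpace Q]
    [LocallyConnectedSpace Q] {P : Set Q} (hPo : IsOpen P) (hP : IsPreconnected P) {x y : Q}
    (hx : x ∈ P) (hy : y ∈ P) :
    ∃ L ⊆ P, IsClosed L ∧ IsPreconnected L ∧ x ∈ L ∧ y ∈ L := by
  have hloc : ∀ z ∈ P, ∃ W, IsOpen W ∧ z ∈ W ∧ closure W ⊆ P ∧ IsPreconnected (closure W) := by
    intro z hz
    obtain ⟨N, hN, hNc, hNP⟩ := exists_mem_nhds_isClosed_subset (hPo.mem_nhds hz)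
    have hzi : z ∈ interior N := mem_interior_iff_mem_nhds.2 hN
    refine ⟨connectedComponentIn (interior N) z, isOpen_interior.connectedComponentIn,
      mem_connectedComponentIn hzi, ?_, isPreconnected_connectedComponentIn.closure⟩
    exact (closure_minimal ((connectedComponentIn_subset _ _).trans interior_subset) hNc).trans hNP
  set E := {z | ∃ L ⊆ P, IsClosed L ∧ IsPreconnected L ∧ x ∈ L ∧ z ∈ L} with hE
  have hstep : ∀ z w W, IsOpen W → closure W ⊆ P → IsPreconnected (closure W) → z ∈ W → w ∈ W →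
      z ∈ E → w ∈ E := by
    rintro z w W - hWP hWc hz hw ⟨L, hLP, hLc, hL, hxL, hzL⟩
    refine ⟨L ∪ closure W, union_subset hLP hWP, hLc.union isClosed_closure,
      hL.union z hzL (subset_closure hz) hWc, Or.inl hxL, Or.inr (subset_closure hw)⟩
  have hxE : x ∈ E := ⟨closure {x}, by
      obtain ⟨W, hW, hxW, hWP, hWc⟩ := hloc x hx
      exact (closure_mono (singleton_subset_iff.2 hxW)).trans hWP, isClosed_closure,
      isPreconnected_singleton.closure, subset_closure rfl, subset_closure rfl⟩
  have hE1 : IsOpen (E ∩ P) := by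
    rw [isOpen_iff_mem_nhds]
    rintro z ⟨hzE, hzP⟩
    obtain ⟨W, hW, hzW, hWP, hWc⟩ := hloc z hzP
    filter_upwards [hW.mem_nhds hzW] with w hw
    exact ⟨hstep z w W hW hWP hWc hzW hw hzE, hWP (subset_closure hw)⟩
  have hE2 : IsOpen (P \ E) := by
    rw [isOpen_iff_mem_nhds]
    rintro z ⟨hzP, hzE⟩
    obtain ⟨W, hW, hzW, hWP, hWc⟩ := hloc z hzP
    filter_upwards [hW.mem_nhds hzW] with w hw
    exact ⟨hWP (subset_closure hw), fun h => hzE (hstep w z W hW hWP hWc hw hzW h)⟩
  have h := IsPreconnected.subset_left_of_subset_union hE1 hE2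
    (by rw [disjoint_left]; rintro z hz hz'; exact hz'.2 hz.1)
    (by
      intro z hz
      by_cases h : z ∈ E
      · exact Or.inl ⟨h, hz⟩
      · exact Or.inr ⟨hz, h⟩) ⟨x, hx, hxE, hx⟩ hP
  exact (h hy).1

theorem s1 : S1 := by
  intro Q _ _ _ _ _ hL A x y hA hsep
  by_contra hcon
  push Not at hcon
  obtain ⟨hxA, hyA, hsepc⟩ := hsep
  -- the local pieces
  have hpiece : ∀ a ∈ A, ∃ A0 B0 : Set Q, IsClosed A0 ∧ IsClosed B0 ∧ Disjoint A0 B0 ∧
      A0 ∪ B0 = A ∧ a ∈ A0 ∧ y ∈ connectedComponentIn A0ᶜ x := by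
    intro a ha
    have hns := hcon a ha
    have hKc : IsClosed (connectedComponentIn A a) := isClosed_compIn hA a
    have hxK : x ∉ connectedComponentIn A a := fun h => hxA (connectedComponentIn_subset _ _ h)
    have hyK : y ∉ connectedComponentIn A a := fun h => hyA (connectedComponentIn_subset _ _ h)
    have hyP : y ∈ connectedComponentIn (connectedComponentIn A a)ᶜ x := by
      by_contra h
      exact hns ⟨hxK, hyK, h⟩
    obtain ⟨L, hLP, hLc, hLconn, hxL, hyL⟩ := exists_closed_conn
      (hKc.isOpen_compl.connectedComponentIn (x := x)) isPreconnected_connectedComponentIn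
      (mem_connectedComponentIn hxK) hyP
    have hdis : Disjoint (connectedComponentIn A a) L := by
      rw [disjoint_left]
      intro z hz hzL
      exact connectedComponentIn_subset _ _ (hLP hzL) hz
    obtain ⟨A0, B0, hA0, hB0, hAB, hu, haA, hAL⟩ := exists_split hA ha hLc hdis
    refine ⟨A0, B0, hA0, hB0, hAB, hu, haA, ?_⟩
    exact hLconn.subset_connectedComponentIn hxL
      (fun z hz hz' => disjoint_left.1 hAL hz' hz) hyL
  choose! A0 B0 hA0 hB0 hAB hu haA hyc using hpiece
  have hcover : A ⊆ ⋃ a : A, (B0 a)ᶜ := by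
    intro a ha
    exact mem_iUnion.2 ⟨⟨a, ha⟩, fun h => disjoint_left.1 (hAB a ha) (haA a ha) h⟩
  obtain ⟨t, ht⟩ := hA.isCompact.elim_finite_subcover (fun a : A => (B0 a)ᶜ)
    (fun a => (hB0 a a.2).isOpen_compl) hcover
  -- finite unions
  have hgood : ∀ s : Finset A, IsClosed (⋃ a ∈ s, A0 (a : Q)) ∧
      IsClosed (A \ ⋃ a ∈ s, A0 (a : Q)) ∧
      y ∈ connectedComponentIn (⋃ a ∈ s, A0 (a : Q))ᶜ x := by
    intro s
    classical
    induction s using Finset.induction_on with
    | empty =>
      refine ⟨by simp, by simpa using hA, ?_⟩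
      simp only [Finset.notMem_empty, iUnion_of_empty, iUnion_empty, compl_empty,
        connectedComponentIn_univ]
      rw [PreconnectedSpace.connectedComponent_eq_univ]
      exact mem_univ _
    | insert a s has ih =>
      obtain ⟨ih1, ih2, ih3⟩ := ih
      have hins : (⋃ b ∈ insert a s, A0 (b : Q)) = (⋃ b ∈ s, A0 (b : Q)) ∪
          (A0 (a : Q) ∩ (A \ ⋃ b ∈ s, A0 (b : Q))) := by
        rw [Finset.set_biUnion_insert]
        ext z
        simp only [mem_union, mem_inter_iff, Set.mem_sdiff]
        constructor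
        · rintro (h | h)
          · by_cases hz : z ∈ ⋃ b ∈ s, A0 (b : Q)
            · exact Or.inl hz
            · refine Or.inr ⟨h, ?_, hz⟩
              rw [← hu a a.2]; exact Or.inl h
          · exact Or.inl h
        · rintro (h | h)
          · exact Or.inr h
          · exact Or.inl h.1
      rw [hins]
      have hcl2 : IsClosed (A0 (a : Q) ∩ (A \ ⋃ b ∈ s, A0 (b : Q))) := (hA0 a a.2).inter ih2
      refine ⟨ih1.union hcl2, ?_, ?_⟩
      · have : A \ ((⋃ b ∈ s, A0 (b : Q)) ∪ (A0 (a : Q) ∩ (A \ ⋃ b ∈ s, A0 (b : Q)))) =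
            (A \ ⋃ b ∈ s, A0 (b : Q)) ∩ B0 (a : Q) := by
          ext z
          simp only [mem_union, mem_inter_iff, Set.mem_sdiff]
          constructor
          · rintro ⟨hzA, hz⟩
            push Not at hz
            refine ⟨⟨hzA, hz.1⟩, ?_⟩
            have : z ∉ A0 (a : Q) := fun h => hz.1 (hz.2 h hzA)
            have hzA' := hzA
            rw [← hu a a.2] at hzA'
            rcases hzA' with h | h
            · exact absurd h this
            · exact h
          · rintro ⟨⟨hzA, hz⟩, hzB⟩
            refine ⟨hzA, ?_⟩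
            rintro (h | ⟨h, -⟩)
            · exact hz h
            · exact disjoint_left.1 (hAB a a.2) h hzB
        rw [this]
        exact ih2.inter (hB0 a a.2)
      · refine janiszewski hL ih1 hcl2 ?_ ih3 ?_
        · rw [disjoint_left]
          rintro z hz ⟨-, -, hz'⟩
          exact hz' hz
        · exact connectedComponentIn_mono x (compl_subset_compl.2 inter_subset_left)
            (hyc a a.2)
  obtain ⟨-, -, hfin⟩ := hgood t
  have hAeq : (⋃ a ∈ t, A0 (a : Q)) = A := by
    apply Subset.antisymm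
    · exact iUnion₂_subset fun a _ => subset_union_left.trans (hu a a.2).subset
    · intro z hz
      obtain ⟨a, hat, hza⟩ := mem_iUnion₂.1 (ht hz)
      refine mem_iUnion₂.2 ⟨a, hat, ?_⟩
      have hz' := hz
      rw [← hu a a.2] at hz'
      rcases hz' with h | h
      · exact h
      · exact absurd h hza
  rw [hAeq] at hfin
  exact hsepc hfin

end Pool.Agent.Q285.PC.Jan
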