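import Pool.Agent.Q185.PC.Stm

/-!
The higher homotopy groups of the subsets vanish.
-/

set_option autoImplicit false

open Set Filter Topology unitInterval

namespace Pool.Agent.Q285.PC.Pm

open Pool.Agent.Q185.PC

instance locI : LocallyConnectedSpace unitInterval :=
  (isQuotientMap_projIcc (h := zero_le_one' ℝ)).isCoinducing.locallyConnectedSpace

/-- the retraction onto the cube -/
noncomputable def ret (m : ℕ) (x : Fin m → ℝ) : Fin m → unitInterval :=
  fun i => projIcc 0 1 zero_le_one (x i)

lemma cont_ret (m : ℕ) : Continuous (ret m) :=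
  continuous_pi fun i => continuous_projIcc.comp (continuous_apply i)

lemma ret_val (m : ℕ) (x : Fin m → unitInterval) : ret m (fun i => (x i : ℝ)) = x := by
  funext i
  exact projIcc_val zero_le_one (x i)

instance pathQ (m : ℕ) : PathConnectedSpace (Fin m → unitInterval) :=
  Function.Surjective.pathConnectedSpace (f := ret m)
    (fun x => ⟨fun i => (x i : ℝ), ret_val m x⟩) (cont_ret m)

lemma lifts (m : ℕ) : Lifts (Fin m → unitInterval) := by
  intro h
  obtain ⟨e₀, he₀⟩ : ∃ e₀ : ℝ, Circle.exp e₀ = h (ret m 0) :=
    ⟨Complex.arg (h (ret m 0)), Circle.exp_arg _⟩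
  obtain ⟨F, ⟨-, hF⟩, -⟩ := Circle.isCoveringMap_exp.existsUnique_continuousMap_lifts
    (A := Fin m → ℝ) (h.comp ⟨ret m, cont_ret m⟩) 0 e₀ he₀
  refine ⟨F.comp ⟨fun x : Fin m → unitInterval => fun i => (x i : ℝ),
    continuous_pi fun i => continuous_subtype_val.comp (continuous_apply i)⟩, fun x => ?_⟩
  have h1 := congrFun hF (fun i => (x i : ℝ))
  simp only [Function.comp_apply, ContinuousMap.comp_apply, ContinuousMap.coe_mk, ret_val] at h1 ⊢
  exact h1.symm

/-- the contraction of the cube -/
def al {m : ℕ} (s : unitInterval) (x : Fin m → unitInterval) : Fin m → unitInterval :=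
  fun i => s * x i

lemma al_zero {m : ℕ} (x : Fin m → unitInterval) : al 0 x = fun _ => 0 := by
  funext i; simp [al]

lemma al_one {m : ℕ} (x : Fin m → unitInterval) : al 1 x = x := by
  funext i; simp [al]

lemma cont_al {m : ℕ} : Continuous fun w : unitInterval × (Fin m → unitInterval) =>
    al w.1 w.2 :=
  continuous_pi fun i => continuous_fst.mul ((continuous_apply i).comp continuous_snd)

/-- the boundary of the cube is connected -/
lemma boundary_conn {m : ℕ} (hm : 2 ≤ m) : IsPreconnected (Cube.boundary (Fin m)) := by
  have h0 : (fun _ => 0 : Fin m → unitInterval) ∈ Cube.boundary (Fin m) :=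
    ⟨⟨0, by omega⟩, Or.inl rfl⟩
  refine isPreconnected_of_forall (fun _ => 0) fun y hy => ?_
  obtain ⟨i, hi⟩ := hy
  obtain ⟨j, hj⟩ : ∃ j : Fin m, j ≠ i := by
    by_cases h : i.1 = 0
    · exact ⟨⟨1, by omega⟩, fun h' => by
        have := congrArg Fin.val h'
        simp only at this
        omega⟩
    · exact ⟨⟨0, by omega⟩, fun h' => by
        have := congrArg Fin.val h'
        simp only at this
        omega⟩
  refine ⟨range (fun s : unitInterval => Function.update y j s) ∪
    range (fun s : unitInterval => al s (Function.update y j 0)), ?_, ?_, ?_, ?_⟩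
  · refine union_subset ?_ ?_
    · rintro _ ⟨s, rfl⟩
      refine ⟨i, ?_⟩
      change Function.update y j s i = 0 ∨ Function.update y j s i = 1
      rw [Function.update_of_ne (Ne.symm hj)]
      exact hi
    · rintro _ ⟨s, rfl⟩
      refine ⟨j, Or.inl ?_⟩
      simp [al]
  · exact Or.inr ⟨0, al_zero _⟩
  · exact Or.inl ⟨y j, Function.update_eq_self j y⟩
  · refine IsPreconnected.union (Function.update y j 0) ⟨0, rfl⟩ ⟨1, al_one _⟩ ?_ ?_
    · exact isPreconnected_range (continuous_const.update j continuous_id)
    · exact isPreconnected_range (cont_al.comp (continuous_id.prodMk continuous_const))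

lemma not_sep_self {Q : Type} [TopologicalSpace Q] (F : Set Q) (z : Q) : ¬ Sep F z z :=
  fun h => h.2.2 (mem_connectedComponentIn h.1)

theorem s6 : S6 := by
  intro h1 h2 h3 h4 h5 X _ _ O c hC M m hm x
  have key : ∀ p : GenLoop (Fin m) M x, GenLoop.Homotopic GenLoop.const p := by
    intro p
    let Q := Fin m → unitInterval
    let f : Q → X := fun q => (p q : X)
    have hf : Continuous f := continuous_subtype_val.comp p.1.continuous
    obtain ⟨hW, hS⟩ := h4 h1 X Q O c f (lifts m) hC hf
    have hE := h5 h3 X Q O c f hC hf hW hS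
    set FF := wallsOf f O c with hFF
    obtain ⟨hcl, hex, huniq⟩ := h2 Q FF hW
    have huniq' := huniq hS
    let b : Q := fun _ => 0
    have hb : b ∈ Cube.boundary (Fin m) := ⟨⟨0, by omega⟩, Or.inl rfl⟩
    have hpB : ∀ y ∈ Cube.boundary (Fin m), f y = x := fun y hy => by
      have := p.2 y hy
      exact congrArg Subtype.val this
    choose md hmd using hex
    -- the homotopy with values in `X`
    let H0 : unitInterval × Q → X := fun w => f (md b w.2 (al w.1 w.2))
    have hval : ∀ (w : unitInterval × Q) (z : Q), Med FF b w.2 (al w.1 w.2) z → H0 w = f z :=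
      fun w z hz => hE _ _ (huniq' _ _ _ _ _ (hmd _ _ _) hz)
    let G : Set ((unitInterval × Q) × Q) := {w | Med FF b w.1.2 (al w.1.1 w.1.2) w.2}
    have hG : IsClosed G := by
      have hc : Continuous fun w : (unitInterval × Q) × Q =>
          ((b, w.1.2, al w.1.1 w.1.2, w.2) : Q × Q × Q × Q) :=
        continuous_const.prodMk ((continuous_snd.comp continuous_fst).prodMk
          ((cont_al.comp continuous_fst).prodMk continuous_snd))
      exact hcl.preimage hc
    have hGc : CompactSpace G := isCompact_iff_compactSpace.1 hG.isCompact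
    have hπ : IsQuotientMap (fun g : G => (g : (unitInterval × Q) × Q).1) := by
      have hc : Continuous (fun g : G => (g : (unitInterval × Q) × Q).1) :=
        continuous_fst.comp continuous_subtype_val
      refine hc.isClosedMap.isQuotientMap hc fun w => ?_
      exact ⟨⟨(w, md b w.2 (al w.1 w.2)), hmd _ _ _⟩, rfl⟩
    have hH0 : Continuous H0 := by
      rw [hπ.continuous_iff]
      have : H0 ∘ (fun g : G => (g : (unitInterval × Q) × Q).1) =
          fun g : G => f (g : (unitInterval × Q) × Q).2 := by
        funext g
        exact hval _ _ g.2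
      rw [this]
      exact hf.comp (continuous_snd.comp continuous_subtype_val)
    have hM : ∀ w, H0 w ∈ M := fun w => (p (md b w.2 (al w.1 w.2))).2
    -- no wall separates points of the boundary
    have hnB : ∀ F ∈ FF, ∀ y ∈ Cube.boundary (Fin m), ¬ Sep F b y := by
      rintro F hF y hy ⟨hbF, hyF, hyc⟩
      by_cases hd : Disjoint F (Cube.boundary (Fin m))
      · apply hyc
        exact (boundary_conn hm).subset_connectedComponentIn hb
          (fun z hz hz' => disjoint_left.1 hd hz' hz) hy
      · obtain ⟨z, hzF, hzB⟩ := not_disjoint_iff.1 hd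
        obtain ⟨x', t, ht, hx', rfl⟩ := hF
        apply hbF
        have hz1 : z ∈ f ⁻¹' {c t} := connectedComponentIn_subset _ _ hzF
        have hz2 : f z = c t := hz1
        rw [connectedComponentIn_eq hzF]
        refine (boundary_conn hm).subset_connectedComponentIn hzB (fun w hw => ?_) hb
        change f w = c t
        rw [hpB w hw, ← hpB z hzB, hz2]
    have hB : ∀ (s : unitInterval) (y : Q), y ∈ Cube.boundary (Fin m) → H0 (s, y) = x := by
      intro s y hy
      rw [hval (s, y) b ?_, hpB b hb]
      intro F hF
      refine ⟨fun h => not_sep_self F b h.1, fun h => not_sep_self F b h.1,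
        fun h => hnB F hF y hy h.1⟩
    refine ⟨⟨⟨⟨fun w => ⟨H0 w, hM w⟩, hH0.subtype_mk _⟩, ?_, ?_⟩, ?_⟩⟩
    · intro y
      apply Subtype.ext
      change H0 (0, y) = (x : X)
      rw [hval (0, y) b ?_, hpB b hb]
      intro F hF
      simp only [al_zero]
      exact ⟨fun h => not_sep_self F b h.1, fun h => not_sep_self F b h.1,
        fun h => not_sep_self F b h.2⟩
    · intro y
      apply Subtype.ext
      change H0 (1, y) = f y
      refine hval (1, y) y ?_
      intro F hF
      simp only [al_one]
      exact ⟨fun h => not_sep_self F y h.2, fun h => not_sep_self F y h.2,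
        fun h => not_sep_self F y h.2⟩
    · intro t y hy
      apply Subtype.ext
      change H0 (t, y) = (x : X)
      exact hB t y hy
  refine ⟨fun a b => ?_⟩
  induction a using Quotient.inductionOn with
  | _ p =>
    induction b using Quotient.inductionOn with
    | _ q => exact Quotient.sound ((key p).symm.trans (key q))

end Pool.Agent.Q285.PC.Pm
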