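import Pool.Agent.Q285.PC.Split

/-!
The walls of a map are sharp.
-/

set_option autoImplicit false

open Set Filter Topology

namespace Pool.Agent.Q285.PC.Shp

open Pool.Agent.Q185.PC

lemma walls {X Q : Type} [TopologicalSpace X] [T2Space X] [TopologicalSpace Q] (O : Set ℝ)
    (c : ℝ → X) (f : Q → X) (hf : Continuous f) : Walls (wallsOf f O c) := by
  have hcl : ∀ t, IsClosed (f ⁻¹' {c t}) := fun t => isClosed_singleton.preimage hf
  constructor
  · rintro F ⟨x, t, -, -, rfl⟩
    exact isClosed_compIn (hcl t) x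
  · rintro F ⟨x, t, -, hx, rfl⟩
    exact isConnected_connectedComponentIn_iff.2 hx
  · rintro F ⟨x, t, -, hx, rfl⟩ G ⟨x', t', -, hx', rfl⟩ hne
    rw [disjoint_left]
    intro z hz hz'
    apply hne
    have h1' : z ∈ f ⁻¹' {c t} := connectedComponentIn_subset _ _ hz
    have h2' : z ∈ f ⁻¹' {c t'} := connectedComponentIn_subset _ _ hz'
    have h1 : f z = c t := h1'
    have h2 : f z = c t' := h2'
    rw [connectedComponentIn_eq hz, connectedComponentIn_eq hz', ← h1, ← h2]

/-- small intervals -/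
lemma exists_eps {X : Type} [TopologicalSpace X] {O : Set ℝ} {c : ℝ → X} (hO : IsOpen O)
    (hc : ContinuousOn c O) {t : ℝ} (ht : t ∈ O) {N : Set X} (hN : IsOpen N) (htN : c t ∈ N) :
    ∃ e > 0, Icc (t - e) (t + e) ⊆ O ∧ c '' Icc (t - e) (t + e) ⊆ N := by
  have h1 : IsOpen (O ∩ c ⁻¹' N) := hc.isOpen_inter_preimage hO hN
  obtain ⟨e, he, hb⟩ := Metric.isOpen_iff.1 h1 t ⟨ht, htN⟩
  have h2 : Icc (t - e / 2) (t + e / 2) ⊆ O ∩ c ⁻¹' N := by
    intro s hs
    apply hb
    rw [Metric.mem_ball, Real.dist_eq, abs_lt]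
    constructor <;> linarith [hs.1, hs.2]
  refine ⟨e / 2, by positivity, fun s hs => (h2 hs).1, ?_⟩
  rintro _ ⟨s, hs, rfl⟩
  exact (h2 hs).2

/-- the separating set -/
lemma sep_of {X Q : Type} [TopologicalSpace X] [T2Space X] [TopologicalSpace Q] {O : Set ℝ}
    {c : ℝ → X} {f : Q → X} (hC : Chart X O c) (hf : Continuous f) {x y : Q} {t e : ℝ}
    (he : 0 < e) (heO : Icc (t - e) (t + e) ⊆ O) (hx : f x = c t) {U V : Set Q} (hU : IsOpen U)
    (hV : IsOpen V) (hUV : Disjoint U V) (hJ : f ⁻¹' (c '' Icc (t - e) (t + e)) ⊆ U ∪ V)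
    (hxU : x ∈ U)
    (hy : f y ∉ c '' Icc (t - e) (t + e) ∨ (f y = c t ∧ y ∈ V)) :
    Sep (f ⁻¹' {c (t - e), c (t + e)}) x y := by
  have htI : t ∈ Ioo (t - e) (t + e) := ⟨by linarith, by linarith⟩
  have htc : t ∈ Icc (t - e) (t + e) := ⟨by linarith, by linarith⟩
  have hmc : t - e ∈ Icc (t - e) (t + e) := ⟨le_rfl, by linarith⟩
  have hpc : t + e ∈ Icc (t - e) (t + e) := ⟨by linarith, le_rfl⟩
  have hxm : c t ≠ c (t - e) := fun h => by
    have := hC.inj (heO htc) (heO hmc) h
    linarith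
  have hxp : c t ≠ c (t + e) := fun h => by
    have := hC.inj (heO htc) (heO hpc) h
    linarith
  have hI : IsOpen (f ⁻¹' (c '' Ioo (t - e) (t + e))) :=
    (hC.isOpen_image _ (Ioo_subset_Icc_self.trans heO) isOpen_Ioo).preimage hf
  have hJc : IsClosed (f ⁻¹' (c '' Icc (t - e) (t + e))) :=
    ((isCompact_Icc.image_of_continuousOn (hC.cont.mono heO)).isClosed).preimage hf
  have hIJ : f ⁻¹' (c '' Ioo (t - e) (t + e)) ⊆ f ⁻¹' (c '' Icc (t - e) (t + e)) :=
    preimage_mono (image_mono Ioo_subset_Icc_self)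
  have hxI : x ∈ f ⁻¹' (c '' Ioo (t - e) (t + e)) := ⟨t, htI, hx.symm⟩
  refine ⟨?_, ?_, ?_⟩
  · rintro (h | h)
    · exact hxm (hx ▸ h)
    · exact hxp (hx ▸ h)
  · rcases hy with hy | ⟨hy, -⟩
    · rintro (h | h)
      · exact hy ⟨_, hmc, h.symm⟩
      · exact hy ⟨_, hpc, h.symm⟩
    · rintro (h | h)
      · exact hxm (hy ▸ h)
      · exact hxp (hy ▸ h)
  · intro hyc
    set I := f ⁻¹' (c '' Ioo (t - e) (t + e)) with hIdef
    set J := f ⁻¹' (c '' Icc (t - e) (t + e)) with hJdef
    have hsub : connectedComponentIn (f ⁻¹' {c (t - e), c (t + e)})ᶜ x ⊆ I ∩ U := by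
      refine IsPreconnected.subset_left_of_subset_union (hI.inter hU)
        ((hI.inter hV).union hJc.isOpen_compl) ?_ ?_ ?_ isPreconnected_connectedComponentIn
      · rw [disjoint_left]
        rintro z ⟨hz1, hz2⟩ (⟨-, hz3⟩ | hz3)
        · exact disjoint_left.1 hUV hz2 hz3
        · exact hz3 (hIJ hz1)
      · intro z hz
        have hz' := connectedComponentIn_subset _ _ hz
        by_cases hzJ : z ∈ J
        · have hzI : z ∈ I := by
            obtain ⟨s, hs, hsz⟩ := hzJ
            refine ⟨s, ⟨lt_of_le_of_ne hs.1 ?_, lt_of_le_of_ne hs.2 ?_⟩, hsz⟩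
            · rintro rfl
              exact hz' (Or.inl hsz.symm)
            · rintro rfl
              exact hz' (Or.inr hsz.symm)
          rcases hJ hzJ with h | h
          · exact Or.inl ⟨hzI, h⟩
          · exact Or.inr (Or.inl ⟨hzI, h⟩)
        · exact Or.inr (Or.inr hzJ)
      · refine ⟨x, mem_connectedComponentIn ?_, hxI, hxU⟩
        rintro (h | h)
        · exact hxm (hx ▸ h)
        · exact hxp (hx ▸ h)
    have hy2 := hsub hyc
    rcases hy with hy | ⟨-, hy⟩
    · exact hy (hIJ hy2.1)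
    · exact disjoint_left.1 hUV hy2.2 hy

theorem s4 : S4 := by
  intro hS1 X Q _ _ _ _ _ _ _ O c f hL hC hf
  refine ⟨walls O c f hf, ?_⟩
  rintro F ⟨x0, t, htO, hx0, rfl⟩ x hx y hy
  rw [connectedComponentIn_eq hx] at hy
  have hfx' : x ∈ f ⁻¹' {c t} := connectedComponentIn_subset _ _ hx
  have hfx : f x = c t := hfx'
  clear hx hx0 x0
  -- the separation
  obtain ⟨e, he, heO, hsep⟩ : ∃ e > 0, Icc (t - e) (t + e) ⊆ O ∧
      Sep (f ⁻¹' {c (t - e), c (t + e)}) x y := by
    by_cases hfy : f y = c t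
    · have hcl : IsClosed (f ⁻¹' {c t}) := isClosed_singleton.preimage hf
      obtain ⟨A0, B0, hA0, hB0, hAB, hABu, hxA, hAL⟩ := exists_split hcl (a := x) hfx
        (L := {y}) isClosed_singleton (disjoint_singleton_right.2 hy)
      have hyB : y ∈ B0 := by
        have : y ∈ A0 ∪ B0 := by rw [hABu]; exact hfy
        rcases this with h | h
        · exact absurd h (disjoint_singleton_right.1 hAL)
        · exact h
      obtain ⟨U, V, hU, hV, hAU, hBV, hUV⟩ := normal_separation hA0 hB0 hAB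
      have hK : IsCompact (f '' (U ∪ V)ᶜ) := ((hU.union hV).isClosed_compl.isCompact).image hf
      obtain ⟨e, he, heO, hN⟩ := exists_eps hC.isOpen_dom hC.cont htO hK.isClosed.isOpen_compl
        (by
          rintro ⟨z, hz, hzt⟩
          apply hz
          have : z ∈ A0 ∪ B0 := by rw [hABu]; exact hzt
          rcases this with h | h
          · exact Or.inl (hAU h)
          · exact Or.inr (hBV h))
      refine ⟨e, he, heO, sep_of hC hf he heO hfx hU hV hUV ?_ (hAU hxA) (Or.inr ⟨hfy, hBV hyB⟩)⟩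
      intro z hz
      by_contra hzn
      exact hN hz ⟨z, hzn, rfl⟩
    · obtain ⟨N, N', hN, hN', htN, hyN, hNN⟩ := t2_separation (Ne.symm hfy)
      obtain ⟨e, he, heO, hcN⟩ := exists_eps hC.isOpen_dom hC.cont htO hN htN
      refine ⟨e, he, heO, sep_of hC hf he heO hfx isOpen_univ isOpen_empty
        (disjoint_empty _) (by simp) (mem_univ _) (Or.inl fun h => ?_)⟩
      exact disjoint_left.1 hNN (hcN h) hyN
  have htc : t ∈ Icc (t - e) (t + e) := ⟨by linarith, by linarith⟩
  have hmc : t - e ∈ Icc (t - e) (t + e) := ⟨le_rfl, by linarith⟩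
  have hpc : t + e ∈ Icc (t - e) (t + e) := ⟨by linarith, le_rfl⟩
  have hmp : c (t - e) ≠ c (t + e) := fun h => by
    have := hC.inj (heO hmc) (heO hpc) h
    linarith
  have hclm : IsClosed (f ⁻¹' {c (t - e)}) := isClosed_singleton.preimage hf
  have hclp : IsClosed (f ⁻¹' {c (t + e)}) := isClosed_singleton.preimage hf
  have hun : f ⁻¹' {c (t - e), c (t + e)} = f ⁻¹' {c (t - e)} ∪ f ⁻¹' {c (t + e)} := by
    rw [← preimage_union]; rfl
  have hdis : Disjoint (f ⁻¹' {c (t - e)}) (f ⁻¹' {c (t + e)}) := by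
    rw [disjoint_left]
    intro z hz hz'
    exact hmp (hz.symm.trans hz')
  have hclA : IsClosed (f ⁻¹' {c (t - e), c (t + e)}) := by
    rw [hun]; exact hclm.union hclp
  obtain ⟨a, haA, hsa⟩ := hS1 Q hL _ x y hclA hsep
  rw [hun] at haA
  rcases haA with ha | ha
  · have heq : connectedComponentIn (f ⁻¹' {c (t - e), c (t + e)}) a =
        connectedComponentIn (f ⁻¹' {c (t - e)}) a := by
      apply Subset.antisymm
      · refine isPreconnected_connectedComponentIn.subset_connectedComponentIn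
          (mem_connectedComponentIn (by rw [hun]; exact Or.inl ha)) ?_
        refine subset_left_closed isPreconnected_connectedComponentIn hclm hclp hdis ?_
          ⟨a, mem_connectedComponentIn (by rw [hun]; exact Or.inl ha), ha⟩
        rw [← hun]
        exact connectedComponentIn_subset _ _
      · exact connectedComponentIn_mono _ (by rw [hun]; exact subset_union_left)
    rw [heq] at hsa
    exact ⟨_, ⟨a, t - e, heO hmc, ha, rfl⟩, hsa⟩
  · have heq : connectedComponentIn (f ⁻¹' {c (t - e), c (t + e)}) a =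
        connectedComponentIn (f ⁻¹' {c (t + e)}) a := by
      apply Subset.antisymm
      · refine isPreconnected_connectedComponentIn.subset_connectedComponentIn
          (mem_connectedComponentIn (by rw [hun]; exact Or.inr ha)) ?_
        refine subset_left_closed isPreconnected_connectedComponentIn hclp hclm hdis.symm ?_
          ⟨a, mem_connectedComponentIn (by rw [hun]; exact Or.inr ha), ha⟩
        rw [union_comm, ← hun]
        exact connectedComponentIn_subset _ _
      · exact connectedComponentIn_mono _ (by rw [hun]; exact subset_union_right)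
    rw [heq] at hsa
    exact ⟨_, ⟨a, t + e, heO hpc, ha, rfl⟩, hsa⟩

end Pool.Agent.Q285.PC.Shp
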