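import Pool.Agent.Q185.PC.Stm

/-!
Every compact metric space without paths embeds in a Peano continuum whose remaining points form a
family of open arcs.
-/

set_option autoImplicit false

open Set Filter Topology

namespace Pool.Agent.Q285.PC.Space

open Pool.Agent.Q185.PC

lemma one_mem_pre (n : ℕ) : (1 : ℝ) ∈ preCantorSet n := by
  induction n with
  | zero => simp
  | succ n ih =>
    rw [preCantorSet_succ]
    right
    exact ⟨1, ih, by norm_num⟩

lemma one_mem : (1 : ℝ) ∈ cantorSet := by
  simp only [cantorSet, mem_iInter]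
  exact one_mem_pre

/-- the parametrization -/
noncomputable def Phi (g : C(ℝ, ℕ → ℝ)) (t : unitInterval) : (ℕ → ℝ) × ℝ × ℝ :=
  (g t, Metric.infDist (t : ℝ) cantorSet, Metric.infDist (t : ℝ) cantorSet * (t : ℝ))

lemma cont_Phi (g : C(ℝ, ℕ → ℝ)) : Continuous (Phi g) := by
  unfold Phi
  have h : Continuous fun t : unitInterval => Metric.infDist (t : ℝ) cantorSet :=
    (Metric.continuous_infDist_pt _).comp continuous_subtype_val
  exact (g.continuous.comp continuous_subtype_val).prodMk (h.prodMk (h.mul continuous_subtype_val))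

lemma pos_of_notMem {t : ℝ} (ht : t ∉ cantorSet) : 0 < Metric.infDist t cantorSet :=
  (isClosed_cantorSet.notMem_iff_infDist_pos ⟨0, zero_mem_cantorSet⟩).1 ht

lemma zero_of_mem {t : ℝ} (ht : t ∈ cantorSet) : Metric.infDist t cantorSet = 0 :=
  Metric.infDist_zero_of_mem ht

/-- the open set of the line -/
def OO : Set ℝ := Ioo 0 1 \ cantorSet

lemma mem_OO {s : ℝ} (hs : s ∈ Icc (0 : ℝ) 1) (h : s ∉ cantorSet) : s ∈ OO := by
  refine ⟨⟨lt_of_le_of_ne hs.1 ?_, lt_of_le_of_ne hs.2 ?_⟩, h⟩
  · rintro rfl; exact h zero_mem_cantorSet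
  · rintro rfl; exact h one_mem

/-- the chart -/
noncomputable def cc (g : C(ℝ, ℕ → ℝ)) (t : ℝ) : range (Phi g) :=
  rangeFactorization (Phi g) (projIcc 0 1 zero_le_one t)

lemma cc_val (g : C(ℝ, ℕ → ℝ)) {t : ℝ} (ht : t ∈ Icc (0 : ℝ) 1) :
    (cc g t : (ℕ → ℝ) × ℝ × ℝ) =
      (g t, Metric.infDist t cantorSet, Metric.infDist t cantorSet * t) := by
  simp only [cc, rangeFactorization_coe, Phi]
  rw [projIcc_of_mem zero_le_one ht]

lemma cont_cc (g : C(ℝ, ℕ → ℝ)) : Continuous (cc g) :=
  ((cont_Phi g).subtype_mk _).comp continuous_projIcc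

lemma OO_sub {t : ℝ} (ht : t ∈ OO) : t ∈ Icc (0 : ℝ) 1 := ⟨ht.1.1.le, ht.1.2.le⟩

lemma peano (g : C(ℝ, ℕ → ℝ)) : IsPeanoContinuum (range (Phi g)) := by
  have hc : Continuous (rangeFactorization (Phi g)) := (cont_Phi g).subtype_mk _
  have hs : Function.Surjective (rangeFactorization (Phi g)) := rangeFactorization_surjective
  refine ⟨inferInstance, isCompact_iff_compactSpace.1 (isCompact_range (cont_Phi g)),
    isConnected_iff_connectedSpace.1 (isConnected_range (cont_Phi g)), ?_⟩
  have hq : IsQuotientMap (rangeFactorization (Phi g)) := hc.isClosedMap.isQuotientMap hc hs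
  have : LocallyConnectedSpace unitInterval :=
    (isQuotientMap_projIcc (h := zero_le_one' ℝ)).isCoinducing.locallyConnectedSpace
  exact hq.isCoinducing.locallyConnectedSpace

theorem s7 : S7 := by
  intro Z _ _ _ hZ
  obtain ⟨f, hf, hfs⟩ := exists_nat_bool_continuous_surjective_of_compact Z
  obtain ⟨e₀, he₀⟩ := Metric.PiNatEmbed.exists_embedding_to_hilbert_cube (X := Z)
  obtain ⟨e, hec, hei⟩ : ∃ e : Z → (ℕ → ℝ), Continuous e ∧ Function.Injective e := by
    refine ⟨fun z n => (e₀ z n : ℝ), ?_, ?_⟩
    · refine continuous_pi fun n => ?_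
      exact continuous_subtype_val.comp ((continuous_apply n).comp he₀.continuous)
    · intro z z' h
      apply he₀.injective
      funext n
      exact Subtype.ext (congrFun h n)
  have hemb : IsClosedEmbedding e := hec.isClosedEmbedding hei
  have hqc : Continuous fun s : cantorSet => f (cantorSetHomeomorphNatToBool s) :=
    hf.comp cantorSetHomeomorphNatToBool.continuous
  obtain ⟨g, hg⟩ := ContinuousMap.exists_restrict_eq isClosed_cantorSet
    (⟨fun s : cantorSet => e (f (cantorSetHomeomorphNatToBool s)), hec.comp hqc⟩ :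
      C(cantorSet, ℕ → ℝ))
  have hg' : ∀ s : cantorSet, g s = e (f (cantorSetHomeomorphNatToBool s)) := fun s => by
    have := DFunLike.congr_fun hg s
    simpa using this
  have hval : ∀ s : unitInterval, ∀ h : (s : ℝ) ∈ cantorSet, Phi g s =
      (e (f (cantorSetHomeomorphNatToBool ⟨s, h⟩)), 0, 0) := by
    intro s h
    have h2 := hg' ⟨s, h⟩
    simp only [Phi, zero_of_mem h, zero_mul]
    rw [← h2]
  refine ⟨range (Phi g), inferInstance, OO, cc g, fun z => ⟨(e z, 0, 0), ?_⟩, peano g, ?_, ?_, ?_⟩
  · obtain ⟨b, rfl⟩ := hfs z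
    obtain ⟨s, rfl⟩ := cantorSetHomeomorphNatToBool.surjective b
    exact ⟨⟨s, cantorSet_subset_unitInterval s.2⟩, hval _ s.2⟩
  · constructor
    · exact isOpen_Ioo.sdiff isClosed_cantorSet
    · exact (cont_cc g).continuousOn
    · intro t ht t' ht' h
      have h1 := congrArg Subtype.val h
      rw [cc_val g (OO_sub ht), cc_val g (OO_sub ht')] at h1
      simp only [Prod.mk.injEq] at h1
      obtain ⟨-, h2, h3⟩ := h1
      rw [← h2] at h3
      exact mul_left_cancel₀ (pos_of_notMem ht.2).ne' h3
    · intro U hU hUo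
      have key : cc g '' U = {p : range (Phi g) | 0 < p.1.2.1} ∩
          (fun p : range (Phi g) => p.1.2.2 / p.1.2.1) ⁻¹' U := by
        ext p
        constructor
        · rintro ⟨t, ht, rfl⟩
          have hv := cc_val g (OO_sub (hU ht))
          have hp := pos_of_notMem (hU ht).2
          refine ⟨?_, ?_⟩
          · simp only [mem_ofPred_eq, hv]; exact hp
          · simp only [mem_preimage, hv]
            rw [mul_div_cancel_left₀ _ hp.ne']
            exact ht
        · rintro ⟨h1, h2⟩
          obtain ⟨p, ⟨s, rfl⟩⟩ := p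
          · simp only [mem_ofPred_eq, Phi, mem_preimage] at h1 h2
            rw [mul_div_cancel_left₀ _ h1.ne'] at h2
            refine ⟨s, h2, Subtype.ext ?_⟩
            rw [cc_val g s.2]
            rfl
      rw [key]
      have ho : IsOpen {p : range (Phi g) | 0 < p.1.2.1} :=
        isOpen_lt continuous_const (continuous_fst.comp
          (continuous_snd.comp continuous_subtype_val))
      refine ContinuousOn.isOpen_inter_preimage ?_ ho hUo
      refine ContinuousOn.div ?_ ?_ ?_
      · exact (continuous_snd.comp (continuous_snd.comp continuous_subtype_val)).continuousOn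
      · exact (continuous_fst.comp (continuous_snd.comp continuous_subtype_val)).continuousOn
      · intro p hp; exact (ne_of_gt hp)
    · intro γ hγ
      have h1 : ∀ t, ∃ z : Z, (γ t).1 = (e z, 0, 0) := by
        intro t
        obtain ⟨s, hs⟩ := (γ t).2
        by_cases h : (s : ℝ) ∈ cantorSet
        · exact ⟨_, by rw [← hs, hval s h]⟩
        · exfalso
          refine hγ t ⟨s, mem_OO s.2 h, Subtype.ext ?_⟩
          rw [cc_val g s.2, ← hs]
          rfl
      choose z hz using h1
      have hzc : Continuous z := by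
        rw [hemb.isEmbedding.continuous_iff]
        have : e ∘ z = fun t => (γ t).1.1 := by
          funext t
          simp only [Function.comp_apply, hz t]
        rw [this]
        exact continuous_fst.comp (continuous_subtype_val.comp γ.continuous)
      intro t
      have h2 := hZ ⟨z, hzc⟩ t
      simp only [ContinuousMap.coe_mk] at h2
      apply Subtype.ext
      rw [hz t, hz 0, h2]
  · exact (hec.prodMk continuous_const).subtype_mk _
  · intro z z' h
    have h1 := congrArg Subtype.val h
    simp only [Prod.mk.injEq] at h1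
    exact hei h1.1

end Pool.Agent.Q285.PC.Space
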