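import Pool.Agent.Q185.PC.Stm

/-!
Splitting a closed subset of a compact Hausdorff space along a component.
-/

set_option autoImplicit false

open Set Filter Topology

namespace Pool.Agent.Q285.PC

variable {Q : Type} [TopologicalSpace Q]

lemma isClosed_compIn {A : Set Q} (hA : IsClosed A) (a : Q) :
    IsClosed (connectedComponentIn A a) := by
  by_cases ha : a ∈ A
  · rw [connectedComponentIn_eq_image ha]
    exact hA.isClosedEmbedding_subtypeVal.isClosedMap _ isClosed_connectedComponent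
  · rw [connectedComponentIn_eq_empty ha]
    exact isClosed_empty

lemma subset_left_closed {s u v : Set Q} (hs : IsPreconnected s) (hu : IsClosed u)
    (hv : IsClosed v) (huv : Disjoint u v) (hsuv : s ⊆ u ∪ v) (hsu : (s ∩ u).Nonempty) :
    s ⊆ u := by
  rcases isPreconnected_iff_subset_of_disjoint_closed.1 hs u v hu hv hsuv
    (by rw [huv.inter_eq, inter_empty]) with h | h
  · exact h
  · obtain ⟨z, hz1, hz2⟩ := hsu
    exact absurd (h hz1) (disjoint_left.1 huv hz2)

theorem exists_split [CompactSpace Q] [T2Space Q] {A : Set Q} (hA : IsClosed A) {a : Q}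
    (ha : a ∈ A) {L : Set Q} (hL : IsClosed L) (hd : Disjoint (connectedComponentIn A a) L) :
    ∃ A0 B0 : Set Q, IsClosed A0 ∧ IsClosed B0 ∧ Disjoint A0 B0 ∧ A0 ∪ B0 = A ∧ a ∈ A0 ∧
      Disjoint A0 L := by
  have hcA : CompactSpace A := isCompact_iff_compactSpace.1 hA.isCompact
  have hemb := hA.isClosedEmbedding_subtypeVal
  set a' : A := ⟨a, ha⟩
  have h1 := connectedComponent_eq_iInter_isClopen a'
  have h2 : ((↑) ⁻¹' L : Set A) ∩ ⋂ s : { s : Set A // IsClopen s ∧ a' ∈ s }, (s : Set A) = ∅ := by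
    rw [← h1]
    ext z
    simp only [mem_inter_iff, mem_preimage, mem_empty_iff_false, iff_false, not_and]
    intro hz1 hz2
    have : (z : Q) ∈ connectedComponentIn A a := by
      rw [connectedComponentIn_eq_image ha]
      exact ⟨z, hz2, rfl⟩
    exact disjoint_left.1 hd this hz1
  have hL' : IsClosed ((↑) ⁻¹' L : Set A) := hL.preimage continuous_subtype_val
  have : Nonempty { s : Set A // IsClopen s ∧ a' ∈ s } := ⟨⟨univ, isClopen_univ, mem_univ _⟩⟩
  obtain ⟨⟨s, hs, has⟩, hs2⟩ := hL'.isCompact.elim_directed_family_closed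
    (fun s : { s : Set A // IsClopen s ∧ a' ∈ s } => (s : Set A)) (fun s => s.2.1.1) h2
    (by
      rintro ⟨s, hs⟩ ⟨t, ht⟩
      exact ⟨⟨s ∩ t, hs.1.inter ht.1, hs.2, ht.2⟩, inter_subset_left, inter_subset_right⟩)
  refine ⟨(↑) '' s, (↑) '' sᶜ, hemb.isClosedMap _ hs.1, hemb.isClosedMap _ hs.compl.1, ?_, ?_,
    ⟨a', has, rfl⟩, ?_⟩
  · rw [disjoint_left]
    rintro _ ⟨z, hz, rfl⟩ ⟨w, hw, hwz⟩
    exact hw (Subtype.ext hwz ▸ hz)
  · rw [← image_union, union_compl_self, image_univ, Subtype.range_coe]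
  · rw [disjoint_left]
    rintro _ ⟨z, hz, rfl⟩ hzL
    have : z ∈ ((↑) ⁻¹' L : Set A) ∩ s := ⟨hzL, hz⟩
    rw [hs2] at this
    exact this

end Pool.Agent.Q285.PC
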