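import Pool.Agent.Q285.PC.Split

/-!
A connected set all of whose points are separated from a point lies behind a single wall.
-/

set_option autoImplicit false

open Set Filter Topology

namespace Pool.Agent.Q285.PC.Wl

open Pool.Agent.Q185.PC

variable {Q : Type} [TopologicalSpace Q]

/-- components of the complement of a closed set: a preconnected set that meets one lies in it -/
lemma sub_comp {F S : Set Q} {e z : Q} (hS : IsPreconnected S) (hSF : S ⊆ Fᶜ) (hz : z ∈ S)
    (hze : z ∈ connectedComponentIn Fᶜ e) : S ⊆ connectedComponentIn Fᶜ e := by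
  rw [connectedComponentIn_eq hze]
  exact hS.subset_connectedComponentIn hz hSF

/-- the complement of a component of the complement of a continuum is connected -/
theorem compl_preconn [ConnectedSpace Q] [LocallyConnectedSpace Q] {F : Set Q} (hF : IsClosed F)
    (hFc : IsConnected F) (e : Q) : IsPreconnected (connectedComponentIn Fᶜ e)ᶜ := by
  have hFo : IsOpen Fᶜ := hF.isOpen_compl
  have hWo : IsOpen (connectedComponentIn Fᶜ e) := hFo.connectedComponentIn
  have hFW : F ⊆ (connectedComponentIn Fᶜ e)ᶜ := fun z hz hz' =>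
    connectedComponentIn_subset _ _ hz' hz
  have key : ∀ u v : Set Q, IsClosed u → IsClosed v → (connectedComponentIn Fᶜ e)ᶜ ⊆ u ∪ v →
      (connectedComponentIn Fᶜ e)ᶜ ∩ (u ∩ v) = ∅ → F ⊆ u → (connectedComponentIn Fᶜ e)ᶜ ⊆ u := by
    intro u v hu hv huv hd hFu
    have hB : IsClopen ((connectedComponentIn Fᶜ e)ᶜ ∩ v) := by
      refine ⟨hWo.isClosed_compl.inter hv, ?_⟩
      rw [isOpen_iff_mem_nhds]
      rintro z ⟨hz1, hz2⟩
      have hzu : z ∉ u := fun h => by
        have : z ∈ (connectedComponentIn Fᶜ e)ᶜ ∩ (u ∩ v) := ⟨hz1, h, hz2⟩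
        rw [hd] at this
        exact this
      have hzF : z ∈ Fᶜ := fun h => hzu (hFu h)
      have hDo : IsOpen (connectedComponentIn Fᶜ z) := hFo.connectedComponentIn
      have hzD : z ∈ connectedComponentIn Fᶜ z := mem_connectedComponentIn hzF
      have hDW : connectedComponentIn Fᶜ z ⊆ (connectedComponentIn Fᶜ e)ᶜ := by
        intro w hw hw'
        apply hz1
        rw [connectedComponentIn_eq hw', ← connectedComponentIn_eq hw]
        exact hzD
      have hDv : connectedComponentIn Fᶜ z ⊆ v := by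
        rcases isPreconnected_iff_subset_of_disjoint_closed.1 isPreconnected_connectedComponentIn
          u v hu hv (hDW.trans huv) (by
            rw [eq_empty_iff_forall_notMem]
            rintro w ⟨hw1, hw2⟩
            have : w ∈ (connectedComponentIn Fᶜ e)ᶜ ∩ (u ∩ v) := ⟨hDW hw1, hw2⟩
            rw [hd] at this
            exact this) with h | h
        · exact absurd (h hzD) hzu
        · exact h
      filter_upwards [hDo.mem_nhds hzD] with w hw
      exact ⟨hDW hw, hDv hw⟩
    have hBe : (connectedComponentIn Fᶜ e)ᶜ ∩ v = ∅ := by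
      rcases isClopen_iff.1 hB with h | h
      · exact h
      · exfalso
        obtain ⟨z, hz⟩ := hFc.nonempty
        have h1 : z ∈ (connectedComponentIn Fᶜ e)ᶜ ∩ v := by rw [h]; exact mem_univ _
        have : z ∈ (connectedComponentIn Fᶜ e)ᶜ ∩ (u ∩ v) := ⟨h1.1, hFu hz, h1.2⟩
        rw [hd] at this
        exact this
    intro z hz
    rcases huv hz with h | h
    · exact h
    · have : z ∈ (connectedComponentIn Fᶜ e)ᶜ ∩ v := ⟨hz, h⟩
      rw [hBe] at this
      exact absurd this (notMem_empty z)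
  rw [isPreconnected_iff_subset_of_disjoint_closed]
  intro u v hu hv huv hd
  have hFuv : F ∩ (u ∩ v) = ∅ := by
    rw [eq_empty_iff_forall_notMem]
    rintro w ⟨hw1, hw2⟩
    have : w ∈ (connectedComponentIn Fᶜ e)ᶜ ∩ (u ∩ v) := ⟨hFW hw1, hw2⟩
    rw [hd] at this
    exact this
  rcases isPreconnected_iff_subset_of_disjoint_closed.1 hFc.isPreconnected u v hu hv
    (hFW.trans huv) hFuv with h | h
  · exact Or.inl (key u v hu hv huv hd h)
  · exact Or.inr (key v u hv hu (by rwa [union_comm]) (by rwa [inter_comm v u]) h)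

/-- two walls: nested or disjoint -/
lemma nested [ConnectedSpace Q] [LocallyConnectedSpace Q] {F F' : Set Q} {e : Q}
    (hF : IsClosed F) (hFc : IsConnected F) (hF'c : IsConnected F') (hd : Disjoint F F')
    (he : e ∉ F) (he' : e ∉ F') :
    (connectedComponentIn Fᶜ e)ᶜ ⊆ (connectedComponentIn F'ᶜ e)ᶜ ∨
    (connectedComponentIn F'ᶜ e)ᶜ ⊆ (connectedComponentIn Fᶜ e)ᶜ ∨
    Disjoint (connectedComponentIn Fᶜ e)ᶜ (connectedComponentIn F'ᶜ e)ᶜ := by
  have h1 : F ⊆ F'ᶜ := fun z hz hz' => disjoint_left.1 hd hz hz'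
  have h2 : F' ⊆ Fᶜ := fun z hz hz' => disjoint_left.1 hd hz' hz
  by_cases hA : Disjoint F' (connectedComponentIn Fᶜ e)
  · right; left
    rw [compl_subset_compl]
    exact isPreconnected_connectedComponentIn.subset_connectedComponentIn
      (mem_connectedComponentIn he) (fun z hz hz' => disjoint_left.1 hA hz' hz)
  by_cases hB : Disjoint F (connectedComponentIn F'ᶜ e)
  · left
    rw [compl_subset_compl]
    exact isPreconnected_connectedComponentIn.subset_connectedComponentIn
      (mem_connectedComponentIn he') (fun z hz hz' => disjoint_left.1 hB hz' hz)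
  right; right
  obtain ⟨a, ha1, ha2⟩ := not_disjoint_iff.1 hA
  obtain ⟨b, hb1, hb2⟩ := not_disjoint_iff.1 hB
  have hF'U : F' ⊆ connectedComponentIn Fᶜ e := sub_comp hF'c.isPreconnected h2 ha1 ha2
  have hG : (connectedComponentIn Fᶜ e)ᶜ ⊆ connectedComponentIn F'ᶜ e := by
    refine sub_comp (compl_preconn hF hFc e) (fun z hz hz' => hz (hF'U hz')) (z := b) ?_ hb2
    exact fun h => connectedComponentIn_subset _ _ h hb1
  rw [disjoint_left]
  intro z hz hz'
  exact hz' (hG hz)

/-- finitely many closed sets, pairwise nested or disjoint, covering a connected set -/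
lemma finite_cover {ι : Type} {G : ι → Set Q} (hG : ∀ i, IsClosed (G i))
    (hnd : ∀ i j, i ≠ j → G i ⊆ G j ∨ G j ⊆ G i ∨ Disjoint (G i) (G j)) {K : Set Q}
    (hK : IsPreconnected K) (hKn : K.Nonempty) : ∀ t : Finset ι, K ⊆ ⋃ i ∈ t, G i →
    ∃ i ∈ t, K ⊆ G i := by
  classical
  intro t
  induction t using Finset.strongInduction with
  | _ t ih =>
    intro hcov
    by_cases hn : ∃ i ∈ t, ∃ j ∈ t, i ≠ j ∧ G i ⊆ G j
    · obtain ⟨i, hi, j, hj, hij, hs⟩ := hn
      obtain ⟨l, hl, hKl⟩ := ih (t.erase i) (Finset.erase_ssubset hi) (by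
        intro z hz
        obtain ⟨m, hm, hzm⟩ := mem_iUnion₂.1 (hcov hz)
        by_cases hmi : m = i
        · subst hmi
          exact mem_iUnion₂.2 ⟨j, Finset.mem_erase.2 ⟨Ne.symm hij, hj⟩, hs hzm⟩
        · exact mem_iUnion₂.2 ⟨m, Finset.mem_erase.2 ⟨hmi, hm⟩, hzm⟩)
      exact ⟨l, Finset.mem_of_mem_erase hl, hKl⟩
    · push Not at hn
      obtain ⟨k, hk⟩ := hKn
      obtain ⟨i, hi, hki⟩ := mem_iUnion₂.1 (hcov hk)
      refine ⟨i, hi, ?_⟩
      refine subset_left_closed hK (hG i) (v := ⋃ j ∈ t.erase i, G j)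
        ((t.erase i).finite_toSet.isClosed_biUnion fun j _ => hG j) ?_ ?_ ⟨k, hk, hki⟩
      · rw [disjoint_left]
        intro z hz hz'
        obtain ⟨j, hj, hzj⟩ := mem_iUnion₂.1 hz'
        have hj2 := Finset.mem_of_mem_erase hj
        have hji := Finset.ne_of_mem_erase hj
        rcases hnd i j (Ne.symm hji) with h | h | h
        · exact hn i hi j hj2 (Ne.symm hji) h
        · exact hn j hj2 i hi hji h
        · exact disjoint_left.1 h hz hzj
      · intro z hz
        obtain ⟨m, hm, hzm⟩ := mem_iUnion₂.1 (hcov hz)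
        by_cases hmi : m = i
        · subst hmi
          exact Or.inl hzm
        · exact Or.inr (mem_iUnion₂.2 ⟨m, Finset.mem_erase.2 ⟨hmi, hm⟩, hzm⟩)

theorem s3 : S3 := by
  intro Q _ _ _ _ _ FF hFF K e hKc hK hsep
  let ι := {F : Set Q // F ∈ FF ∧ e ∉ F}
  let G : ι → Set Q := fun F => (connectedComponentIn F.1ᶜ e)ᶜ
  have hGc : ∀ F : ι, IsClosed (G F) := fun F =>
    ((hFF.closed F.1 F.2.1).isOpen_compl.connectedComponentIn).isClosed_compl
  have hnd : ∀ F F' : ι, F ≠ F' → G F ⊆ G F' ∨ G F' ⊆ G F ∨ Disjoint (G F) (G F') := by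
    intro F F' hne
    exact nested (hFF.closed F.1 F.2.1) (hFF.conn F.1 F.2.1) (hFF.conn F'.1 F'.2.1)
      (hFF.disj F.1 F.2.1 F'.1 F'.2.1 (fun h => hne (Subtype.ext h))) F.2.2 F'.2.2
  -- the open cover
  have hOo : ∀ F : ι, IsOpen (F.1ᶜ \ connectedComponentIn F.1ᶜ e) := by
    intro F
    have hFo := (hFF.closed F.1 F.2.1).isOpen_compl
    rw [isOpen_iff_mem_nhds]
    intro v hv
    filter_upwards [(hFo.connectedComponentIn (x := v)).mem_nhds (mem_connectedComponentIn hv.1)]
      with z hz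
    refine ⟨connectedComponentIn_subset _ _ hz, fun hz' => hv.2 ?_⟩
    rw [connectedComponentIn_eq hz', ← connectedComponentIn_eq hz]
    exact mem_connectedComponentIn hv.1
  obtain ⟨t, ht⟩ := hKc.elim_finite_subcover
    (fun F : ι => F.1ᶜ \ connectedComponentIn F.1ᶜ e) hOo (by
      intro k hk
      obtain ⟨F, hF, h1, h2, h3⟩ := hsep k hk
      exact mem_iUnion.2 ⟨⟨F, hF, h1⟩, h2, h3⟩)
  obtain ⟨F, -, hKF⟩ := finite_cover (G := G) hGc hnd hK.isPreconnected hK.nonempty t (by
    refine ht.trans (iUnion₂_mono fun F _ => ?_)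
    exact fun z hz => hz.2)
  refine ⟨F.1, F.2.1, F.2.2, ?_⟩
  rw [disjoint_left]
  intro z hz hz'
  exact hKF hz hz'

end Pool.Agent.Q285.PC.Wl
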